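import Pool.Agent.N922.PQ.Def
import Pool.Agent.N711.PP.CQ

/-!
# Project PQ (helper922): boxes of integral tuples with congruence conditions (PQ/BOX, helper50,
after helper160)
-/

set_option autoImplicit false
set_option linter.all false

open scoped Classical

namespace Pool.Agent.N50.PQ

open Pool.Agent.N874.PP (Tup chA chB gq tau Two S_CQ)
open Pool.Agent.N922.PQ

/-! ### Maps of tuples -/

/-- The image of a tuple under a ring homomorphism. -/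
noncomputable def tmap {R R' : Type} [CommRing R] [CommRing R'] (φ : R →+* R') (B : Tup R) : Tup R' :=
  ⟨φ B.x, φ B.y, φ B.c, φ B.z, φ B.w⟩

section tmap

variable {R R' : Type} [CommRing R] [CommRing R'] (φ : R →+* R') (B : Tup R)

lemma chA_tmap : chA (tmap φ B) = φ (chA B) := by
  have h2 : φ 2 = 2 := map_ofNat φ 2
  have h3 : φ 3 = 3 := map_ofNat φ 3
  simp [chA, tmap, h2, h3]

lemma chB_tmap : chB (tmap φ B) = φ (chB B) := by
  have h2 : φ 2 = 2 := map_ofNat φ 2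
  simp [chB, tmap, h2]

lemma gq_tmap (u : R) : gq (tmap φ B) (φ u) = φ (gq B u) := by
  have h4 : φ 4 = 4 := map_ofNat φ 4
  have h8 : φ 8 = 8 := map_ofNat φ 8
  have h12 : φ 12 = 12 := map_ofNat φ 12
  simp [gq, tmap, h4, h8, h12]

end tmap

/-- tuples as products -/
def tupEquiv (R : Type) : Tup R ≃ R × R × R × R × R where
  toFun B := (B.x, B.y, B.c, B.z, B.w)
  invFun p := ⟨p.1, p.2.1, p.2.2.1, p.2.2.2.1, p.2.2.2.2⟩
  left_inv _ := rfl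
  right_inv _ := rfl

instance {R : Type} [Finite R] : Finite (Tup R) := Finite.of_equiv _ (tupEquiv R).symm

/-! ### One prime -/

lemma pr_nat {Q : ℤ} (h : IsPr Q) : Q.natAbs.Prime := Int.prime_iff_natAbs_prime.1 h.2

lemma pr_cast {Q : ℤ} (h : IsPr Q) : ((Q.natAbs : ℕ) : ℤ) = Q := Int.natAbs_of_nonneg h.1.le

/-- reduction modulo `Q` -/
abbrev rd (Q : ℤ) : ℤ →+* ZMod Q.natAbs := Int.castRingHom (ZMod Q.natAbs)

lemma rd_zero (Q x : ℤ) : rd Q x = 0 ↔ Q ∣ x := by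
  show ((x : ℤ) : ZMod Q.natAbs) = 0 ↔ Q ∣ x
  rw [CharP.intCast_eq_zero_iff (ZMod Q.natAbs) Q.natAbs, Int.natAbs_dvd]

/-- The good tuples modulo `Q`. -/
abbrev GQ (s : ℤ → ℤ) (Q : ℤ) : Type :=
  {B : Tup (ZMod Q.natAbs) // chA B = rd Q (s Q) ∧ chB B = 0 ∧ Two B}

lemma card_GQ (s : ℤ → ℤ) {Q : ℤ} (hQ : IsPr Q) (hQ8 : Q % 8 = 1)
    (hs : ∀ z : ℤ, ¬ Q ∣ z ^ 2 + s Q) : 2 * Nat.card (GQ s Q) ≤ Q.natAbs ^ 3 := by
  haveI : Fact Q.natAbs.Prime := ⟨pr_nat hQ⟩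
  have hn : ∀ d : ℤ, 0 < d → d < 9 → rd Q d ≠ 0 := by
    intro d hd hd9 h0
    rw [rd_zero] at h0
    have h1 := Int.le_of_dvd hd h0
    have h2 := hQ.1
    have h3 : Q = 1 := by omega
    have h4 := (pr_nat hQ).one_lt
    rw [h3] at h4
    norm_num at h4
  have h6' : (6 : ZMod Q.natAbs) ≠ 0 := by
    have := hn 6 (by norm_num) (by norm_num)
    rwa [map_ofNat] at this
  have h4 : (4 : ZMod Q.natAbs) ≠ 0 := by
    have := hn 4 (by norm_num) (by norm_num)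
    rwa [map_ofNat] at this
  have hsne : rd Q (s Q) ≠ 0 := by
    intro h0
    rw [rd_zero] at h0
    apply hs 0
    simpa using h0
  have h1 := Pool.Agent.N711.PP.cq (ZMod Q.natAbs) h6' (rd Q (s Q)) 0 (by
    rw [zero_pow two_ne_zero, mul_zero, add_zero]
    exact mul_ne_zero h4 (pow_ne_zero 3 hsne))
  rw [Nat.card_zmod] at h1
  exact h1

lemma two_tmap {Q : ℤ} {B : Tup ℤ} (h : TT Q B) : Two (tmap (rd Q) B) := by
  rcases h with ⟨u, u', h1, h2, h3⟩ | ⟨h1, u, h2⟩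
  · left
    refine ⟨rd Q u, rd Q u', ?_, ?_, ?_⟩
    · intro h0
      apply h1
      rw [← rd_zero, map_sub, h0, sub_self]
    · rw [gq_tmap, rd_zero]; exact h2
    · rw [gq_tmap, rd_zero]; exact h3
  · right
    refine ⟨?_, rd Q u, ?_⟩
    · show rd Q B.x = 0
      rw [rd_zero]; exact h1
    · rw [gq_tmap, rd_zero]; exact h2

/-- integers with the same residues modulo the `Q ∈ S` and the same quotient by the product -/
lemma crt_inj {S : Finset ℤ} (hS : ∀ Q ∈ S, IsPr Q) {f g : ℤ}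
    (h : ∀ Q ∈ S, rd Q f = rd Q g)
    (hd : f / (∏ Q ∈ S, Q) = g / (∏ Q ∈ S, Q)) : f = g := by
  have hdvd : (∏ Q ∈ S, Q) ∣ f - g := by
    apply Finset.prod_dvd_of_coprime
    · intro Q hQ Q' hQ' hne
      have h1 := pr_nat (hS Q hQ)
      have h2 := pr_nat (hS Q' hQ')
      show IsCoprime Q Q'
      rw [← pr_cast (hS Q hQ), ← pr_cast (hS Q' hQ'), Nat.isCoprime_iff_coprime,
        Nat.coprime_primes h1 h2]
      intro he
      apply hne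
      rw [← pr_cast (hS Q hQ), ← pr_cast (hS Q' hQ'), he]
    · intro Q hQ
      rw [← rd_zero, map_sub, h Q hQ, sub_self]
  have hmod : f % (∏ Q ∈ S, Q) = g % (∏ Q ∈ S, Q) :=
    Int.emod_eq_emod_iff_emod_sub_eq_zero.2 (Int.emod_eq_zero_of_dvd hdvd)
  rw [← Int.mul_ediv_add_emod f (∏ Q ∈ S, Q), ← Int.mul_ediv_add_emod g (∏ Q ∈ S, Q), hmod, hd]

/-- the interval of the quotients -/
lemma div_mem {M q L n : ℤ} (hM : 0 < M) (hq : 0 < q) (h : |n| * q ≤ L) :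
    n / M ∈ Finset.Icc (-(L / (q * M) + 1)) (L / (q * M)) := by
  rw [Finset.mem_Icc]
  have hqM : 0 < q * M := mul_pos hq hM
  have h1 : L < q * M * (L / (q * M) + 1) := by
    have h2 := Int.mul_ediv_add_emod L (q * M)
    have h3 := Int.emod_lt_of_pos L hqM
    linarith
  have hn1 := le_abs_self n
  have hn2 := neg_abs_le n
  have h5 := Int.mul_ediv_add_emod n M
  have h6 := Int.emod_nonneg n hM.ne'
  have h7 := Int.emod_lt_of_pos n hM
  constructor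
  · by_contra hcon
    push Not at hcon
    -- n / M ≤ -(a + 1) - 1, n < M * (n / M + 1) ≤ - M (a + 1)
    have h8 : n / M + 1 ≤ -(L / (q * M) + 1) := by omega
    have h9 := mul_le_mul_of_nonneg_left h8 hM.le
    have h10 : n < M * (n / M + 1) := by linarith
    have h11 : M * (L / (q * M) + 1) < -n := by linarith
    have h12 : M * (L / (q * M) + 1) < |n| := by linarith
    have h13 := mul_lt_mul_of_pos_right h12 hq
    linarith
  · rw [Int.le_ediv_iff_mul_le hqM]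
    have h8 : n / M * M ≤ n := by linarith
    calc n / M * (q * M) = (n / M * M) * q := by ring
      _ ≤ |n| * q := mul_le_mul_of_nonneg_right (h8.trans hn1) hq.le
      _ ≤ L := h

/-- the number of the quotients -/
lemma card_iv {M q L : ℤ} (hM : 0 < M) (hq : 0 < q) (h : q * M ≤ L) :
    ∃ a : ℕ, Nat.card (Finset.Icc (-(L / (q * M) + 1)) (L / (q * M))) ≤ 4 * a ∧
      (a : ℤ) * (q * M) ≤ L := by
  have hqM : 0 < q * M := mul_pos hq hM
  have h1 : 1 ≤ L / (q * M) := by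
    rw [Int.le_ediv_iff_mul_le hqM]
    linarith
  refine ⟨(L / (q * M)).toNat, ?_, ?_⟩
  · rw [Nat.card_eq_fintype_card, Fintype.card_coe, Int.card_Icc]
    omega
  · rw [Int.toNat_of_nonneg (by omega)]
    exact Int.ediv_mul_le _ hqM.ne'

theorem box : S_BOX := by
  intro κ
  refine ⟨(4 * κ) ^ 5, fun S s hS X T hT hMX => ?_⟩
  obtain ⟨M, hM⟩ : ∃ M : ℤ, M = ∏ Q ∈ S, Q := ⟨_, rfl⟩
  rw [← hM] at hMX ⊢
  have hM0 : 0 < M := by
    rw [hM]
    exact Finset.prod_pos fun Q hQ => (hS Q hQ).1.1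
  obtain ⟨t, ht⟩ : ∃ t : ℤ, t = (T : ℤ) := ⟨_, rfl⟩
  have ht1 : 1 ≤ t := by rw [ht]; exact_mod_cast hT
  rw [← ht] at hMX
  obtain ⟨K, hK⟩ : ∃ K : ℤ, K = (κ : ℤ) * X := ⟨_, rfl⟩
  rw [← hK] at hMX
  have hb : ∀ B : Tup ℤ, Xset κ X T S s B → |B.x| * t ^ 2 ≤ K ∧ |B.y| * t ≤ K ∧ |B.c| * 1 ≤ K ∧
      |B.z| * 1 ≤ K * t ∧ |B.w| * 1 ≤ K * t ^ 2 := by
    intro B hB
    obtain ⟨b1, b2, b3, b4, b5⟩ := hB.box
    rw [← ht] at b1 b2 b4 b5
    rw [← hK] at b1 b2 b3 b4 b5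
    simp only [mul_one]
    exact ⟨b1, b2, b3, b4, b5⟩
  have ht2 : 0 < t ^ 2 := by positivity
  have ht0 : 0 < t := by linarith
  have htt : t ≤ t ^ 2 := by nlinarith
  have hMt : M ≤ K := by nlinarith
  have hK0 : 0 < K := lt_of_lt_of_le hM0 hMt
  obtain ⟨a1, c1, d1⟩ := card_iv (L := K) hM0 ht2 (by linarith)
  obtain ⟨a2, c2, d2⟩ := card_iv (L := K) hM0 ht0 (by nlinarith)
  obtain ⟨a3, c3, d3⟩ := card_iv (q := 1) (L := K) hM0 one_pos (by linarith)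
  obtain ⟨a4, c4, d4⟩ := card_iv (q := 1) (L := K * t) hM0 one_pos (by nlinarith)
  obtain ⟨a5, c5, d5⟩ := card_iv (q := 1) (L := K * t ^ 2) hM0 one_pos (by nlinarith)
  let Tt : Type := (∀ Q : {Q // Q ∈ S}, GQ s Q.1) ×
    (Finset.Icc (-(K / (t ^ 2 * M) + 1)) (K / (t ^ 2 * M))) ×
    (Finset.Icc (-(K / (t * M) + 1)) (K / (t * M))) ×
    (Finset.Icc (-(K / (1 * M) + 1)) (K / (1 * M))) ×
    (Finset.Icc (-(K * t / (1 * M) + 1)) (K * t / (1 * M))) ×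
    (Finset.Icc (-(K * t ^ 2 / (1 * M) + 1)) (K * t ^ 2 / (1 * M)))
  have keyQ : ∀ B : {B : Tup ℤ | Xset κ X T S s B}, ∀ Q : {Q // Q ∈ S},
      chA (tmap (rd Q.1) B.1) = rd Q.1 (s Q.1) ∧
      chB (tmap (rd Q.1) B.1) = 0 ∧ Two (tmap (rd Q.1) B.1) := by
    rintro ⟨B, hB⟩ ⟨Q, hQ⟩
    refine ⟨?_, ?_, two_tmap (hB.tt Q hQ)⟩
    · rw [chA_tmap, ← sub_eq_zero, ← map_sub, rd_zero]
      exact hB.ra Q hQ
    · rw [chB_tmap, rd_zero]
      exact hB.rb Q hQ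
  let Φ : {B : Tup ℤ | Xset κ X T S s B} → Tt := fun B =>
    (fun Q => ⟨tmap (rd Q.1) B.1, keyQ B Q⟩,
      ⟨B.1.x / M, div_mem hM0 ht2 (hb B.1 B.2).1⟩, ⟨B.1.y / M, div_mem hM0 ht0 (hb B.1 B.2).2.1⟩,
      ⟨B.1.c / M, div_mem hM0 one_pos (hb B.1 B.2).2.2.1⟩,
      ⟨B.1.z / M, div_mem hM0 one_pos (hb B.1 B.2).2.2.2.1⟩,
      ⟨B.1.w / M, div_mem hM0 one_pos (hb B.1 B.2).2.2.2.2⟩)
  have hΦ : Function.Injective Φ := by
    rintro ⟨B, hB⟩ ⟨B', hB'⟩ h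
    have h1 : B.x / M = B'.x / M := congrArg (fun t : Tt => (t.2.1 : ℤ)) h
    have h2 : B.y / M = B'.y / M := congrArg (fun t : Tt => (t.2.2.1 : ℤ)) h
    have h3 : B.c / M = B'.c / M := congrArg (fun t : Tt => (t.2.2.2.1 : ℤ)) h
    have h4 : B.z / M = B'.z / M := congrArg (fun t : Tt => (t.2.2.2.2.1 : ℤ)) h
    have h5 : B.w / M = B'.w / M := congrArg (fun t : Tt => (t.2.2.2.2.2 : ℤ)) h
    rw [hM] at h1 h2 h3 h4 h5
    have hQ : ∀ Q ∈ S, tmap (rd Q) B = tmap (rd Q) B' := by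
      intro Q hQ
      exact congrArg (fun t : Tt => (t.1 ⟨Q, hQ⟩).1) h
    have hS' : ∀ Q ∈ S, IsPr Q := fun Q hQ => (hS Q hQ).1
    apply Subtype.ext
    exact Tup.ext (crt_inj hS' (fun Q h => congrArg Tup.x (hQ Q h)) h1)
      (crt_inj hS' (fun Q h => congrArg Tup.y (hQ Q h)) h2)
      (crt_inj hS' (fun Q h => congrArg Tup.c (hQ Q h)) h3)
      (crt_inj hS' (fun Q h => congrArg Tup.z (hQ Q h)) h4)
      (crt_inj hS' (fun Q h => congrArg Tup.w (hQ Q h)) h5)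
  haveI : ∀ Q : {Q // Q ∈ S}, Finite (GQ s Q.1) := fun Q => by
    haveI : Fact Q.1.natAbs.Prime := ⟨pr_nat (hS Q.1 Q.2).1⟩
    infer_instance
  haveI : Finite Tt := inferInstanceAs (Finite ((∀ Q : {Q // Q ∈ S}, GQ s Q.1) × _ × _ × _ × _ × _))
  haveI hfin : Finite {B : Tup ℤ | Xset κ X T S s B} := Finite.of_injective Φ hΦ
  refine ⟨Set.toFinite _, ?_⟩
  have h1 := Nat.card_le_card_of_injective Φ hΦ
  rw [Nat.card_coe_set_eq] at h1
  have hcard : Nat.card Tt ≤ (∏ Q ∈ S, Nat.card (GQ s Q)) * (4 ^ 5 * (a1 * a2 * a3 * a4 * a5)) := by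
    show Nat.card ((∀ Q : {Q // Q ∈ S}, GQ s Q.1) × _ × _ × _ × _ × _) ≤ _
    rw [Nat.card_prod, Nat.card_prod, Nat.card_prod, Nat.card_prod, Nat.card_prod,
      Nat.card_pi, Finset.prod_coe_sort S (fun Q => Nat.card (GQ s Q))]
    refine Nat.mul_le_mul_left _ ?_
    calc _ ≤ 4 * a1 * (4 * a2 * (4 * a3 * (4 * a4 * (4 * a5)))) :=
          Nat.mul_le_mul c1 (Nat.mul_le_mul c2 (Nat.mul_le_mul c3 (Nat.mul_le_mul c4 c5)))
      _ = 4 ^ 5 * (a1 * a2 * a3 * a4 * a5) := by ring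
  have h2 : 2 ^ S.card * ∏ Q ∈ S, Nat.card (GQ s Q) ≤ ∏ Q ∈ S, Q.natAbs ^ 3 := by
    rw [← Finset.prod_const, ← Finset.prod_mul_distrib]
    exact Finset.prod_le_prod' fun Q hQ => card_GQ s (hS Q hQ).1 (hS Q hQ).2.1 (hS Q hQ).2.2
  have h3 : ((∏ Q ∈ S, Q.natAbs ^ 3 : ℕ) : ℤ) = M ^ 3 := by
    rw [hM]
    push_cast
    rw [← Finset.prod_pow]
    refine Finset.prod_congr rfl fun Q hQ => ?_
    rw [abs_of_pos (hS Q hQ).1.1]
  -- the product of the five bounds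
  have e : (a1 * a2 * a3 * a4 * a5 : ℤ) * M ^ 5 ≤ K ^ 5 := by
    have q1 : (a1 * (t ^ 2 * M)) * ((a2 * (t * M)) * ((a3 * (1 * M)) * ((a4 * (1 * M)) *
        (a5 * (1 * M))))) ≤ K * (K * (K * ((K * t) * (K * t ^ 2)))) := by
      have := hM0.le
      gcongr
    have q2 : (a1 * (t ^ 2 * M)) * ((a2 * (t * M)) * ((a3 * (1 * M)) * ((a4 * (1 * M)) *
        (a5 * (1 * M))))) = ((a1 * a2 * a3 * a4 * a5 : ℤ) * M ^ 5) * t ^ 3 := by ring
    have q3 : K * (K * (K * ((K * t) * (K * t ^ 2)))) = K ^ 5 * t ^ 3 := by ring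
    rw [q2, q3] at q1
    exact le_of_mul_le_mul_right q1 (by positivity)
  have h1' : ((({B : Tup ℤ | Xset κ X T S s B}.ncard : ℕ)) : ℤ) ≤
      (∏ Q ∈ S, Nat.card (GQ s Q) : ℕ) * (4 ^ 5 * (a1 * a2 * a3 * a4 * a5)) := by
    exact_mod_cast h1.trans hcard
  have h2' : (2 ^ S.card * ((∏ Q ∈ S, Nat.card (GQ s Q) : ℕ) : ℤ)) ≤ M ^ 3 := by
    rw [← h3]
    exact_mod_cast h2
  calc (2 ^ S.card * M ^ 2 * ({B : Tup ℤ | Xset κ X T S s B}.ncard : ℤ) : ℤ)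
      ≤ 2 ^ S.card * M ^ 2 * ((∏ Q ∈ S, Nat.card (GQ s Q) : ℕ) * (4 ^ 5 * (a1 * a2 * a3 * a4 * a5))) :=
        mul_le_mul_of_nonneg_left h1' (by positivity)
    _ = (2 ^ S.card * ((∏ Q ∈ S, Nat.card (GQ s Q) : ℕ) : ℤ)) *
        (M ^ 2 * (4 ^ 5 * (a1 * a2 * a3 * a4 * a5))) := by ring
    _ ≤ M ^ 3 * (M ^ 2 * (4 ^ 5 * (a1 * a2 * a3 * a4 * a5))) :=
        mul_le_mul_of_nonneg_right h2' (by positivity)
    _ = 4 ^ 5 * ((a1 * a2 * a3 * a4 * a5 : ℤ) * M ^ 5) := by ring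
    _ ≤ 4 ^ 5 * K ^ 5 := mul_le_mul_of_nonneg_left e (by norm_num)
    _ = (((4 * κ) ^ 5 : ℕ) : ℤ) * X ^ 5 := by
        rw [hK]
        push_cast
        ring

theorem box0 : S_BOX0 := by
  intro κ
  obtain ⟨K, hK⟩ := box κ
  refine ⟨K, fun S s X T hT hX => ?_⟩
  have hsub : {B : Tup ℤ | Xset κ X T S s B} ⊆ {B : Tup ℤ | Xset κ X T ∅ s B} := by
    intro B hB
    exact ⟨hB.box, hB.nz, by simp, by simp, by simp⟩
  by_cases h : T ^ 2 ≤ κ * X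
  · obtain ⟨h1, h2⟩ := hK ∅ s (by intro Q hQ; simp at hQ) X T hT (by
      rw [Finset.prod_empty, one_mul]
      exact_mod_cast h)
    refine ⟨h1.subset hsub, ?_⟩
    have h3 := Set.ncard_le_ncard hsub h1
    rw [Finset.prod_empty, Finset.card_empty, pow_zero, one_pow, one_mul, one_mul] at h2
    have h4 : {B : Tup ℤ | Xset κ X T ∅ s B}.ncard ≤ K * X ^ 5 := by exact_mod_cast h2
    exact h3.trans h4
  · have he : {B : Tup ℤ | Xset κ X T S s B} = ∅ := by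
      rw [Set.eq_empty_iff_forall_notMem]
      intro B hB
      apply h
      have h1 := hB.box.1
      have h2 : 1 ≤ |B.x| := Int.one_le_abs hB.nz
      have h3 : ((T : ℤ)) ^ 2 ≤ κ * X := by
        have h4 : 0 ≤ ((T : ℤ)) ^ 2 := by positivity
        nlinarith
      exact_mod_cast h3
    rw [he]
    exact ⟨Set.finite_empty, by rw [Set.ncard_empty]; exact Nat.zero_le _⟩

end Pool.Agent.N50.PQ
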