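import Pool.Agent.N922.PQ.Lat

/-!
# Project PQ (helper922): the majorant from the archimedean places (PQ/MAJ, helper50)
-/

set_option autoImplicit false

open Matrix
open scoped Classical

namespace Pool.Agent.N50.PQ.Maj

open Pool.Agent.N922.PQ

/-! ### Linear algebra -/

section lin

/-- the form with a twist -/
noncomputable def Cm (E1 : Fin 3 → ℝ) (E2 : Fin 3 → ℂ) (A : ℝ) (W : ℂ) : Matrix (Fin 3) (Fin 3) ℝ :=
  Matrix.of fun i j => A * E1 i * E1 j + 2 * (W * E2 i * E2 j).re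

/-- the majorant -/
noncomputable def Hm (E1 : Fin 3 → ℝ) (E2 : Fin 3 → ℂ) (A : ℝ) (W : ℂ) : Matrix (Fin 3) (Fin 3) ℝ :=
  Matrix.of fun i j => A * E1 i * E1 j + 2 * ‖W‖ * ((E2 i).re * (E2 j).re + (E2 i).im * (E2 j).im)

/-- the matrix of the places -/
noncomputable def Vm (E1 : Fin 3 → ℝ) (E2 : Fin 3 → ℂ) : Matrix (Fin 3) (Fin 3) ℝ :=
  Matrix.of fun i => ![E1 i, (E2 i).re, (E2 i).im]

noncomputable def l1 (E1 : Fin 3 → ℝ) (u : Fin 3 → ℝ) : ℝ := ∑ i, u i * E1 i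

noncomputable def l2 (E2 : Fin 3 → ℂ) (u : Fin 3 → ℝ) : ℂ := ∑ i, (u i : ℂ) * E2 i

variable (E1 : Fin 3 → ℝ) (E2 : Fin 3 → ℂ) (A : ℝ) (W : ℂ)

lemma cm_sum (u v : Fin 3 → ℝ) :
    ∑ i, ∑ j, u i * v j * (A * E1 i * E1 j + 2 * (W * E2 i * E2 j).re) =
      A * l1 E1 u * l1 E1 v + 2 * (W * l2 E2 u * l2 E2 v).re := by
  unfold l1 l2
  simp only [Fin.sum_univ_three, Complex.mul_re, Complex.mul_im, Complex.add_re, Complex.add_im,
    Complex.ofReal_re, Complex.ofReal_im]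
  ring

lemma hm_sum (u : Fin 3 → ℝ) :
    u ⬝ᵥ Hm E1 E2 A W *ᵥ u = A * l1 E1 u ^ 2 + 2 * ‖W‖ * ‖l2 E2 u‖ ^ 2 := by
  rw [← Complex.normSq_eq_norm_sq, Complex.normSq_apply]
  unfold l1 l2 Hm
  simp only [dotProduct, mulVec, Matrix.of_apply, Fin.sum_univ_three, Complex.mul_re,
    Complex.mul_im, Complex.add_re, Complex.add_im, Complex.ofReal_re, Complex.ofReal_im]
  ring

lemma det_C : (Cm E1 E2 A W).det = -(4 * A * ‖W‖ ^ 2) * (Vm E1 E2).det ^ 2 := by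
  rw [← Complex.normSq_eq_norm_sq, Complex.normSq_apply]
  unfold Cm Vm
  simp only [Matrix.det_fin_three, Matrix.of_apply, Complex.mul_re, Complex.mul_im,
    Matrix.cons_val_zero, Matrix.cons_val_one, Matrix.cons_val]
  ring

lemma det_H : (Hm E1 E2 A W).det = (4 * A * ‖W‖ ^ 2) * (Vm E1 E2).det ^ 2 := by
  unfold Hm Vm
  simp only [Matrix.det_fin_three, Matrix.of_apply,
    Matrix.cons_val_zero, Matrix.cons_val_one, Matrix.cons_val]
  ring

lemma vec_V (u : Fin 3 → ℝ) : u ᵥ* (Vm E1 E2) = ![l1 E1 u, (l2 E2 u).re, (l2 E2 u).im] := by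
  funext k
  unfold l1 l2 Vm
  fin_cases k <;>
  simp [vecMul, dotProduct, Fin.sum_univ_three]

lemma cs (A x y B t1 : ℝ) (W z w t2 : ℂ) (hA : 0 ≤ A) (h1 : |t1| ≤ B) (h2 : ‖t2‖ ≤ B) :
    (A * t1 * x * y + 2 * (W * t2 * z * w).re) ^ 2 ≤
      B ^ 2 * ((A * x ^ 2 + 2 * ‖W‖ * ‖z‖ ^ 2) * (A * y ^ 2 + 2 * ‖W‖ * ‖w‖ ^ 2)) := by
  have hB : 0 ≤ B := (abs_nonneg _).trans h1
  have e1 : |A * t1 * x * y + 2 * (W * t2 * z * w).re| ≤
      B * (A * (|x| * |y|) + 2 * ‖W‖ * (‖z‖ * ‖w‖)) := by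
    have k1 : |(W * t2 * z * w).re| ≤ ‖W‖ * ‖t2‖ * ‖z‖ * ‖w‖ := by
      refine (Complex.abs_re_le_norm _).trans (le_of_eq ?_)
      rw [norm_mul, norm_mul, norm_mul]
    have k2 : |A * t1 * x * y| = A * |t1| * (|x| * |y|) := by
      rw [abs_mul, abs_mul, abs_mul, abs_of_nonneg hA]
      ring
    have k3 : A * |t1| * (|x| * |y|) ≤ A * B * (|x| * |y|) := by gcongr
    have k4 : ‖W‖ * ‖t2‖ * ‖z‖ * ‖w‖ ≤ ‖W‖ * B * ‖z‖ * ‖w‖ := by gcongr
    calc |A * t1 * x * y + 2 * (W * t2 * z * w).re| ≤ |A * t1 * x * y| + |2 * (W * t2 * z * w).re| :=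
          abs_add_le _ _
      _ = A * |t1| * (|x| * |y|) + 2 * |(W * t2 * z * w).re| := by
          rw [k2, abs_mul, abs_of_nonneg (by norm_num : (0:ℝ) ≤ 2)]
      _ ≤ B * (A * (|x| * |y|) + 2 * ‖W‖ * (‖z‖ * ‖w‖)) := by linarith
  have e2 : (A * (|x| * |y|) + 2 * ‖W‖ * (‖z‖ * ‖w‖)) ^ 2 ≤
      (A * x ^ 2 + 2 * ‖W‖ * ‖z‖ ^ 2) * (A * y ^ 2 + 2 * ‖W‖ * ‖w‖ ^ 2) := by
    rw [← sq_abs x, ← sq_abs y]
    have : (A * |x| ^ 2 + 2 * ‖W‖ * ‖z‖ ^ 2) * (A * |y| ^ 2 + 2 * ‖W‖ * ‖w‖ ^ 2) -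
        (A * (|x| * |y|) + 2 * ‖W‖ * (‖z‖ * ‖w‖)) ^ 2 =
        A * (2 * ‖W‖) * (|x| * ‖w‖ - |y| * ‖z‖) ^ 2 := by ring
    have h3 : 0 ≤ A * (2 * ‖W‖) * (|x| * ‖w‖ - |y| * ‖z‖) ^ 2 := by positivity
    linarith
  rw [← sq_abs]
  calc |A * t1 * x * y + 2 * (W * t2 * z * w).re| ^ 2 ≤
        (B * (A * (|x| * |y|) + 2 * ‖W‖ * (‖z‖ * ‖w‖))) ^ 2 :=
        pow_le_pow_left₀ (abs_nonneg _) e1 2
    _ = B ^ 2 * (A * (|x| * |y|) + 2 * ‖W‖ * (‖z‖ * ‖w‖)) ^ 2 := by ring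
    _ ≤ _ := mul_le_mul_of_nonneg_left e2 (by positivity)

lemma posdef (hA : 0 < A) (hW : W ≠ 0) (hV : (Vm E1 E2).det ≠ 0) : (Hm E1 E2 A W).PosDef := by
  refine Matrix.PosDef.of_dotProduct_mulVec_pos ?_ ?_
  · ext i j
    simp only [Hm, Matrix.conjTranspose_apply, Matrix.of_apply, star_trivial]
    ring
  · intro u hu
    rw [star_trivial, hm_sum]
    have hWn : 0 < ‖W‖ := norm_pos_iff.2 hW
    have h1 : 0 ≤ A * l1 E1 u ^ 2 := by positivity
    have h2 : 0 ≤ 2 * ‖W‖ * ‖l2 E2 u‖ ^ 2 := by positivity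
    by_contra hcon
    push Not at hcon
    have h3 : A * l1 E1 u ^ 2 = 0 := by linarith
    have h4 : 2 * ‖W‖ * ‖l2 E2 u‖ ^ 2 = 0 := by linarith
    have h5 : l1 E1 u = 0 := by
      rcases mul_eq_zero.1 h3 with h | h
      · linarith
      · exact pow_eq_zero_iff (two_ne_zero) |>.1 h
    have h6 : l2 E2 u = 0 := by
      rcases mul_eq_zero.1 h4 with h | h
      · linarith
      · exact norm_eq_zero.1 (pow_eq_zero_iff (two_ne_zero) |>.1 h)
    have h7 := vec_V E1 E2 u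
    rw [h5, h6] at h7
    have h8 : u ᵥ* (Vm E1 E2) = 0 := by
      rw [h7]
      funext k
      fin_cases k <;> simp
    exact hu (Matrix.eq_zero_of_vecMul_eq_zero hV h8)

lemma pos_val (hA : 0 < A) (hV : (Vm E1 E2).det ≠ 0) :
    ∃ u : Fin 3 → ℝ, 0 < ∑ i, ∑ j, u i * u j * (A * E1 i * E1 j + 2 * (W * E2 i * E2 j).re) := by
  refine ⟨![1, 0, 0] ᵥ* (Vm E1 E2)⁻¹, ?_⟩
  rw [cm_sum]
  set u := ![1, 0, 0] ᵥ* (Vm E1 E2)⁻¹ with hu
  have h1 : u ᵥ* (Vm E1 E2) = ![1, 0, 0] := by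
    rw [hu, Matrix.vecMul_vecMul, Matrix.nonsing_inv_mul _ (isUnit_iff_ne_zero.2 hV), Matrix.vecMul_one]
  rw [vec_V] at h1
  have h2 : l1 E1 u = 1 := congrFun h1 0
  have h3 : (l2 E2 u).re = 0 := congrFun h1 1
  have h4 : (l2 E2 u).im = 0 := congrFun h1 2
  have h5 : l2 E2 u = 0 := Complex.ext h3 h4
  rw [h2, h5]
  simpa using hA

end lin

/-- a form with rational coefficients which is positive somewhere is positive at an integral vector -/
lemma int_val (c : Fin 3 → Fin 3 → ℚ) (u : Fin 3 → ℝ) (hu : 0 < ∑ i, ∑ j, u i * u j * (c i j : ℝ)) :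
    ∃ v : Fin 3 → ℤ, 0 < ∑ i, ∑ j, (v i : ℚ) * (v j : ℚ) * c i j := by
  have hopen : IsOpen {u : Fin 3 → ℝ | 0 < ∑ i, ∑ j, u i * u j * (c i j : ℝ)} := by
    refine isOpen_lt continuous_const ?_
    fun_prop
  have hd : DenseRange (Pi.map (fun (_ : Fin 3) (q : ℚ) => (q : ℝ))) :=
    DenseRange.piMap fun _ => Rat.denseRange_cast
  obtain ⟨w, hw⟩ := hd.exists_mem_open hopen ⟨u, hu⟩
  have hw' : 0 < ∑ i, ∑ j, w i * w j * c i j := by
    have h1 : 0 < ∑ i, ∑ j, ((w i : ℚ) : ℝ) * ((w j : ℚ) : ℝ) * (c i j : ℝ) := hw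
    exact_mod_cast h1
  obtain ⟨D, hD⟩ : ∃ D : ℕ, D = (w 0).den * (w 1).den * (w 2).den := ⟨_, rfl⟩
  have hD0 : 0 < D := by
    rw [hD]
    exact Nat.mul_pos (Nat.mul_pos (w 0).den_pos (w 1).den_pos) (w 2).den_pos
  have hint : ∀ i, ∃ z : ℤ, (z : ℚ) = D * w i := by
    intro i
    have h0 : ∀ q : ℚ, (q.den : ℚ) * q = q.num := fun q => by
      rw [mul_comm]
      exact Rat.mul_den_eq_num q
    fin_cases i
    · refine ⟨(w 0).num * ((w 1).den * (w 2).den), ?_⟩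
      rw [hD]
      push_cast
      rw [← h0 (w 0)]
      ring
    · refine ⟨(w 1).num * ((w 0).den * (w 2).den), ?_⟩
      rw [hD]
      push_cast
      rw [← h0 (w 1)]
      ring
    · refine ⟨(w 2).num * ((w 0).den * (w 1).den), ?_⟩
      rw [hD]
      push_cast
      rw [← h0 (w 2)]
      ring
  choose v hv using hint
  refine ⟨v, ?_⟩
  have h2 : ∑ i, ∑ j, (v i : ℚ) * (v j : ℚ) * c i j = (D : ℚ) ^ 2 * ∑ i, ∑ j, w i * w j * c i j := by
    simp only [hv, Fin.sum_univ_three]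
    ring
  rw [h2]
  have : (0 : ℚ) < D := by exact_mod_cast hD0
  positivity

/-! ### The cubic field -/

section cub

variable {L : Type} [Field L] [NumberField L] {a b : ℤ} {θ : L}

lemma co_eq (h : IsCub a b θ) (x : L) :
    x = ((h.co 0 x : ℚ) : L) + ((h.co 1 x : ℚ) : L) * θ + ((h.co 2 x : ℚ) : L) * θ ^ 2 := by
  have h1 := h.basis.sum_repr x
  rw [Fin.sum_univ_three, IsCub.basis_apply, IsCub.basis_apply, IsCub.basis_apply] at h1
  simp only [Pool.Agent.N922.PQ.vec, Matrix.cons_val_zero, Matrix.cons_val_one, Matrix.cons_val, Rat.smul_def,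
    mul_one] at h1
  exact h1.symm

lemma co_of (h : IsCub a b θ) (r s t : ℚ) :
    h.co 0 ((r : L) + (s : L) * θ + (t : L) * θ ^ 2) = r ∧
    h.co 1 ((r : L) + (s : L) * θ + (t : L) * θ ^ 2) = s ∧
    h.co 2 ((r : L) + (s : L) * θ + (t : L) * θ ^ 2) = t := by
  have e : (r : L) + (s : L) * θ + (t : L) * θ ^ 2 = ∑ i, (![r, s, t] : Fin 3 → ℚ) i • h.basis i := by
    rw [Fin.sum_univ_three, IsCub.basis_apply, IsCub.basis_apply, IsCub.basis_apply]
    simp only [Pool.Agent.N922.PQ.vec, Matrix.cons_val_zero, Matrix.cons_val_one, Matrix.cons_val, Rat.smul_def,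
      mul_one]
  have h2 : ∀ i, h.co i ((r : L) + (s : L) * θ + (t : L) * θ ^ 2) = (![r, s, t] : Fin 3 → ℚ) i := by
    intro i
    rw [e]
    show h.basis.repr (∑ i, (![r, s, t] : Fin 3 → ℚ) i • h.basis i) i = _
    rw [Module.Basis.repr_sum_self]
  exact ⟨h2 0, h2 1, h2 2⟩

/-- the coordinates of a product -/
lemma co_mul (h : IsCub a b θ) (x y : L) :
    h.co 0 (x * y) = h.co 0 x * h.co 0 y - b * (h.co 1 x * h.co 2 y + h.co 2 x * h.co 1 y) ∧
    h.co 1 (x * y) = h.co 0 x * h.co 1 y + h.co 1 x * h.co 0 y -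
      a * (h.co 1 x * h.co 2 y + h.co 2 x * h.co 1 y) - b * (h.co 2 x * h.co 2 y) ∧
    h.co 2 (x * y) = h.co 0 x * h.co 2 y + h.co 1 x * h.co 1 y + h.co 2 x * h.co 0 y -
      a * (h.co 2 x * h.co 2 y) := by
  have hx := co_eq h x
  have hy := co_eq h y
  set r := h.co 0 x
  set s := h.co 1 x
  set t := h.co 2 x
  set r' := h.co 0 y
  set s' := h.co 1 y
  set t' := h.co 2 y
  have e : x * y = ((r * r' - b * (s * t' + t * s') : ℚ) : L) +
      ((r * s' + s * r' - a * (s * t' + t * s') - b * (t * t') : ℚ) : L) * θ +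
      ((r * t' + s * s' + t * r' - a * (t * t') : ℚ) : L) * θ ^ 2 := by
    rw [hx, hy]
    push_cast
    linear_combination ((s : L) * t' + t * s' + t * t' * θ) * h.root
  rw [e]
  exact co_of h _ _ _

/-- evaluation at a root -/
noncomputable def ev {F : Type} [Field F] (h : IsCub a b θ) (z : F) (x : L) : F :=
  ((h.co 0 x : ℚ) : F) + ((h.co 1 x : ℚ) : F) * z + ((h.co 2 x : ℚ) : F) * z ^ 2

lemma ev_mul {F : Type} [Field F] [CharZero F] (h : IsCub a b θ) {z : F}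
    (hz : z ^ 3 + (a : F) * z + (b : F) = 0) (x y : L) : ev h z (x * y) = ev h z x * ev h z y := by
  obtain ⟨h0, h1, h2⟩ := co_mul h x y
  unfold ev
  rw [h0, h1, h2]
  push_cast
  linear_combination (-(((h.co 1 x : ℚ) : F) * ((h.co 2 y : ℚ) : F) +
    ((h.co 2 x : ℚ) : F) * ((h.co 1 y : ℚ) : F) + ((h.co 2 x : ℚ) : F) * ((h.co 2 y : ℚ) : F) * z)) * hz

lemma co_one (h : IsCub a b θ) : h.co 0 (1 : L) = 1 ∧ h.co 1 (1 : L) = 0 ∧ h.co 2 (1 : L) = 0 := by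
  have := co_of h 1 0 0
  simpa using this

lemma co_theta (h : IsCub a b θ) : h.co 0 θ = 0 ∧ h.co 1 θ = 1 ∧ h.co 2 θ = 0 := by
  have := co_of h 0 1 0
  simpa using this

lemma ev_one {F : Type} [Field F] (h : IsCub a b θ) (z : F) : ev h z (1 : L) = 1 := by
  obtain ⟨h0, h1, h2⟩ := co_one h
  unfold ev
  rw [h0, h1, h2]
  simp

lemma ev_theta {F : Type} [Field F] (h : IsCub a b θ) (z : F) : ev h z θ = z := by
  obtain ⟨h0, h1, h2⟩ := co_theta h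
  unfold ev
  rw [h0, h1, h2]
  simp

lemma ev_ne {F : Type} [Field F] [CharZero F] (h : IsCub a b θ) {z : F}
    (hz : z ^ 3 + (a : F) * z + (b : F) = 0) {x : L} (hx : x ≠ 0) : ev h z x ≠ 0 := by
  intro h0
  have h1 := ev_mul h hz x x⁻¹
  rw [h0, mul_inv_cancel₀ hx, ev_one, zero_mul] at h1
  exact one_ne_zero h1

lemma ev_div {F : Type} [Field F] [CharZero F] (h : IsCub a b θ) {z : F}
    (hz : z ^ 3 + (a : F) * z + (b : F) = 0) (x : L) {y : L} (hy : y ≠ 0) :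
    ev h z (x / y) = ev h z x / ev h z y := by
  rw [eq_div_iff (ev_ne h hz hy), ← ev_mul h hz, div_mul_cancel₀ x hy]

/-- `c₁ (x) = c₂ (θ x)` -/
lemma co_shift (h : IsCub a b θ) (x : L) : h.co 1 x = h.co 2 (θ * x) := by
  obtain ⟨h0, h1, h2⟩ := co_theta h
  rw [(co_mul h θ x).2.2, h0, h1, h2]
  ring

/-- the norm -/
lemma norm_co (h : IsCub a b θ) (x : L) : Algebra.norm ℚ x =
    h.co 0 x * ((h.co 0 x - a * h.co 2 x) * (h.co 0 x - a * h.co 2 x) -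
      (-b * h.co 2 x - a * h.co 1 x) * h.co 1 x) -
    (-b * h.co 2 x) * (h.co 1 x * (h.co 0 x - a * h.co 2 x) -
      (-b * h.co 2 x - a * h.co 1 x) * h.co 2 x) +
    (-b * h.co 1 x) * (h.co 1 x * h.co 1 x - (h.co 0 x - a * h.co 2 x) * h.co 2 x) := by
  obtain ⟨t0, t1, t2⟩ := co_theta h
  have c0 : ∀ i : Fin 3, Algebra.leftMulMatrix h.basis x i 0 = h.co i x := by
    intro i
    rw [Algebra.leftMulMatrix_eq_repr_mul, IsCub.basis_apply]
    simp only [Pool.Agent.N922.PQ.vec, Matrix.cons_val_zero, mul_one]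
    rfl
  have c1 : ∀ i : Fin 3, Algebra.leftMulMatrix h.basis x i 1 = h.co i (x * θ) := by
    intro i
    rw [Algebra.leftMulMatrix_eq_repr_mul, IsCub.basis_apply]
    rfl
  have c2 : ∀ i : Fin 3, Algebra.leftMulMatrix h.basis x i 2 = h.co i (x * θ * θ) := by
    intro i
    rw [Algebra.leftMulMatrix_eq_repr_mul, IsCub.basis_apply]
    simp only [Pool.Agent.N922.PQ.vec, Matrix.cons_val, pow_two, ← mul_assoc]
    rfl
  obtain ⟨x0, x1, x2⟩ := co_mul h x θ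
  obtain ⟨y0, y1, y2⟩ := co_mul h (x * θ) θ
  rw [Algebra.norm_eq_matrix_det h.basis, Matrix.det_fin_three, c0, c0, c0, c1, c1, c1, c2, c2, c2,
    y0, y1, y2, x0, x1, x2, t0, t1, t2]
  ring

end cub

/-- the real root -/
lemma real_root {a b : ℤ} {X : ℕ} (ha : 0 < a) (hb : |b| ≤ X ^ 3) :
    ∃ t : ℝ, t ^ 3 + (a : ℝ) * t + (b : ℝ) = 0 ∧ |t| ≤ X := by
  have ha' : (0 : ℝ) < a := by exact_mod_cast ha
  have hb' : |(b : ℝ)| ≤ (X : ℝ) ^ 3 := by exact_mod_cast hb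
  have hX0 : (0 : ℝ) ≤ X := Nat.cast_nonneg X
  have hcont : Continuous fun t : ℝ => t ^ 3 + (a : ℝ) * t + (b : ℝ) := by fun_prop
  have h1 := intermediate_value_Icc (show -(X : ℝ) ≤ X by linarith) hcont.continuousOn
  have hm : (0 : ℝ) ∈ Set.Icc ((-(X : ℝ)) ^ 3 + (a : ℝ) * (-(X : ℝ)) + (b : ℝ))
      ((X : ℝ) ^ 3 + (a : ℝ) * (X : ℝ) + (b : ℝ)) := by
    have h2 := abs_le.1 hb'
    have h3 : 0 ≤ (a : ℝ) * X := by positivity
    constructor
    · nlinarith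
    · linarith
  obtain ⟨t, ht, ht2⟩ := h1 hm
  exact ⟨t, ht2, abs_le.2 ht⟩

theorem maj : S_MAJ := by
  intro L _ _ a b θ h X ha haX hbX α e hα hN he
  obtain ⟨t, ht, htX⟩ := real_root ha hbX
  have ha' : (0 : ℝ) < a := by exact_mod_cast ha
  have haX' : (a : ℝ) ≤ (X : ℝ) ^ 2 := by exact_mod_cast haX
  have hX0 : (0 : ℝ) ≤ X := Nat.cast_nonneg X
  obtain ⟨p, hp⟩ : ∃ p : ℝ, p = -t / 2 := ⟨_, rfl⟩
  obtain ⟨q, hq⟩ : ∃ q : ℝ, q = Real.sqrt (a + 3 * t ^ 2 / 4) := ⟨_, rfl⟩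
  have hq2 : q ^ 2 = a + 3 * t ^ 2 / 4 := by
    rw [hq, Real.sq_sqrt (by positivity)]
  have hq0 : 0 < q := by
    rw [hq]
    exact Real.sqrt_pos.2 (by positivity)
  obtain ⟨z, hz⟩ : ∃ z : ℂ, z = ⟨p, q⟩ := ⟨_, rfl⟩
  have hzre : z.re = p := by rw [hz]
  have hzim : z.im = q := by rw [hz]
  have hz2 : z ^ 2 + (t : ℂ) * z + ((t : ℂ) ^ 2 + (a : ℂ)) = 0 := by
    apply Complex.ext
    · simp only [pow_two, Complex.add_re, Complex.mul_re, Complex.ofReal_re, Complex.ofReal_im,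
        Complex.intCast_re, Complex.zero_re, hzre, hzim]
      rw [hp]
      nlinarith
    · simp only [pow_two, Complex.add_im, Complex.mul_im, Complex.ofReal_re, Complex.ofReal_im,
        Complex.intCast_im, Complex.zero_im, hzre, hzim]
      rw [hp]
      ring
  have htC : (t : ℂ) ^ 3 + (a : ℂ) * (t : ℂ) + (b : ℂ) = 0 := by exact_mod_cast ht
  have hz3 : z ^ 3 + (a : ℂ) * z + (b : ℂ) = 0 := by
    linear_combination (z - t) * hz2 + htC
  have hzn2 : ‖z‖ ^ 2 = t ^ 2 + a := by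
    rw [← Complex.normSq_eq_norm_sq, Complex.normSq_apply, hzre, hzim, hp]
    nlinarith
  have ht2X : t ^ 2 ≤ (X : ℝ) ^ 2 := by
    rw [← sq_abs]
    exact pow_le_pow_left₀ (abs_nonneg _) htX 2
  have hzn : ‖z‖ ≤ 2 * X := by
    refine le_of_sq_le_sq ?_ (by positivity)
    nlinarith
  have htn : |t| ≤ 2 * X := by linarith
  obtain ⟨δ, hδ⟩ : ∃ δ : ℝ, δ = (t - p) ^ 2 + q ^ 2 := ⟨_, rfl⟩
  have hδ0 : 0 < δ := by rw [hδ]; positivity
  -- the formula for the last coordinate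
  obtain ⟨W0, hW0⟩ : ∃ W0 : ℂ, W0 = ⟨-1 / (2 * δ), (t - p) / (2 * δ * q)⟩ := ⟨_, rfl⟩
  have hW0re : W0.re = -1 / (2 * δ) := by rw [hW0]
  have hW0im : W0.im = (t - p) / (2 * δ * q) := by rw [hW0]
  have hW0ne : W0 ≠ 0 := by
    intro h0
    rw [h0, Complex.zero_re] at hW0re
    have : -1 / (2 * δ) < 0 := div_neg_of_neg_of_pos (by norm_num) (by positivity)
    linarith
  have hc2 : ∀ x : L, ((h.co 2 x : ℚ) : ℝ) = 1 / δ * ev h t x + 2 * (W0 * ev h z x).re := by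
    intro x
    unfold ev
    simp only [Complex.mul_re, Complex.mul_im, Complex.add_re, Complex.add_im, Complex.ratCast_re,
      Complex.ratCast_im, pow_two, hzre, hzim, hW0re, hW0im]
    have hδ' := hδ0.ne'
    have hq' := hq0.ne'
    field_simp
    rw [hδ]
    ring
  have hc1 : ∀ x : L, ((h.co 1 x : ℚ) : ℝ) = 1 / δ * (t * ev h t x) + 2 * (W0 * (z * ev h z x)).re := by
    intro x
    rw [co_shift, hc2, ev_mul h ht, ev_mul h hz3, ev_theta, ev_theta]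
  -- the norm
  have hnorm : ((Algebra.norm ℚ α : ℚ) : ℝ) = ev h t α * Complex.normSq (ev h z α) := by
    rw [norm_co h, Complex.normSq_apply]
    unfold ev
    simp only [Complex.mul_re, Complex.mul_im, Complex.add_re, Complex.add_im, Complex.ratCast_re,
      Complex.ratCast_im, pow_two, hzre, hzim]
    push_cast
    have hb : (b : ℝ) = -(t ^ 3 + a * t) := by linarith
    have ha2 : (a : ℝ) = q ^ 2 - 3 * t ^ 2 / 4 := by linarith
    rw [hb, ha2, hp]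
    ring
  have hpos : 0 < ev h t α := by
    have h1 : (0 : ℝ) < ((Algebra.norm ℚ α : ℚ) : ℝ) := by exact_mod_cast hN
    rw [hnorm] at h1
    have h2 : 0 ≤ Complex.normSq (ev h z α) := Complex.normSq_nonneg _
    by_contra hcon
    push Not at hcon
    have h3 := mul_nonpos_of_nonpos_of_nonneg hcon h2
    linarith
  have hz0 : ev h z α ≠ 0 := ev_ne h hz3 hα
  obtain ⟨A, hA⟩ : ∃ A : ℝ, A = 1 / δ / ev h t α := ⟨_, rfl⟩
  have hA0 : 0 < A := by rw [hA]; positivity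
  obtain ⟨W, hW⟩ : ∃ W : ℂ, W = W0 / ev h z α := ⟨_, rfl⟩
  have hWne : W ≠ 0 := by rw [hW]; exact div_ne_zero hW0ne hz0
  obtain ⟨E1, hE1⟩ : ∃ E1 : Fin 3 → ℝ, E1 = fun i => ev h t (e i) := ⟨_, rfl⟩
  obtain ⟨E2, hE2⟩ : ∃ E2 : Fin 3 → ℂ, E2 = fun i => ev h z (e i) := ⟨_, rfl⟩
  have hC2 : ∀ i j, ((h.co 2 (e i * e j / α) : ℚ) : ℝ) = A * E1 i * E1 j + 2 * (W * E2 i * E2 j).re := by
    intro i j
    rw [hc2, ev_div h ht _ hα, ev_div h hz3 _ hα, ev_mul h ht, ev_mul h hz3, hA, hW, hE1, hE2]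
    congr 1
    · field_simp
    · congr 2
      field_simp
  have hC1 : ∀ i j, ((h.co 1 (e i * e j / α) : ℚ) : ℝ) =
      (A * t) * E1 i * E1 j + 2 * ((W * z) * E2 i * E2 j).re := by
    intro i j
    rw [hc1, ev_div h ht _ hα, ev_div h hz3 _ hα, ev_mul h ht, ev_mul h hz3, hA, hW, hE1, hE2]
    congr 1
    · field_simp
    · congr 2
      field_simp
  -- the determinant
  have hV : (Vm E1 E2).det ≠ 0 := by
    obtain ⟨Cq, hCq⟩ : ∃ Cq : Matrix (Fin 3) (Fin 3) ℚ, Cq = Matrix.of fun i k => h.co k (e i) := ⟨_, rfl⟩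
    have hli : LinearIndependent ℚ Cq.row := by
      have h1 := he.map' h.basis.equivFun.toLinearMap (LinearEquiv.ker _)
      have h2 : (h.basis.equivFun.toLinearMap ∘ e) = Cq.row := by
        rw [hCq]
        rfl
      rwa [h2] at h1
    have hdet : Cq.det ≠ 0 := by
      have h1 := Matrix.linearIndependent_rows_iff_isUnit.1 hli
      exact ((Matrix.isUnit_iff_isUnit_det _).1 h1).ne_zero
    have hfac : (Vm E1 E2).det = ((Cq.det : ℚ) : ℝ) * (q * δ) := by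
      rw [hδ, hCq, hE1, hE2]
      unfold Vm ev
      simp only [Matrix.det_fin_three, Matrix.of_apply, Matrix.cons_val_zero, Matrix.cons_val_one,
        Matrix.cons_val, Complex.mul_re, Complex.mul_im, Complex.add_re, Complex.add_im,
        Complex.ratCast_re, Complex.ratCast_im, pow_two, hzre, hzim]
      push_cast
      ring
    rw [hfac]
    have : ((Cq.det : ℚ) : ℝ) ≠ 0 := by exact_mod_cast hdet
    positivity
  refine ⟨Hm E1 E2 A W, posdef E1 E2 A W hA0 hWne hV, ?_, ?_, ?_, ?_⟩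
  · have h1 : (((Matrix.of fun i j => h.co 2 (e i * e j / α)).det : ℚ) : ℝ) = (Cm E1 E2 A W).det := by
      rw [Matrix.det_fin_three, Matrix.det_fin_three]
      simp only [Matrix.of_apply, Cm]
      push_cast
      simp only [hC2]
    rw [h1, det_C, det_H, neg_mul, abs_neg, abs_of_nonneg (by positivity)]
  · intro u v
    simp only [hC2]
    rw [cm_sum, hm_sum, hm_sum]
    have h1 := cs A (l1 E1 u) (l1 E1 v) 1 1 W (l2 E2 u) (l2 E2 v) 1 hA0.le (by simp) (by simp)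
    simp only [mul_one, one_pow, one_mul] at h1
    exact h1
  · intro u v
    simp only [hC1]
    rw [cm_sum, hm_sum, hm_sum]
    exact cs A (l1 E1 u) (l1 E1 v) (2 * X) t W (l2 E2 u) (l2 E2 v) z hA0.le htn hzn
  · obtain ⟨u, hu⟩ := pos_val E1 E2 A W hA0 hV
    refine int_val (fun i j => h.co 2 (e i * e j / α)) u ?_
    simp only [hC2]
    exact hu

end Pool.Agent.N50.PQ.Maj
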