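import Pool.Agent.N922.PQ.Def

/-!
# Project PQ (helper922): orbits of the unipotent group over `ℤ` (PQ/ORB, helper50, after helper530)
-/

set_option autoImplicit false

open scoped Classical

namespace Pool.Agent.N50.PQ

open Pool.Agent.N874.PP (Tup chA chB gq tau Two)
open Pool.Agent.N922.PQ

section tup

variable {R : Type} [CommRing R]

lemma chA_tau (u : R) (B : Tup R) : chA (tau u B) = chA B := by
  unfold chA tau gq
  ring

lemma chB_tau (u : R) (B : Tup R) : chB (tau u B) = chB B := by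
  unfold chB tau gq
  ring

lemma gq_tau (u v : R) (B : Tup R) : gq (tau u B) v = gq B (u + v) := by
  unfold tau gq
  ring

end tup

lemma box_tau {κ X T : ℕ} {B : Tup ℤ} (hB : InBox κ X T B) {u : ℤ} (hu0 : 0 ≤ u) (hu : u ≤ T) :
    InBox (29 * κ) X T (tau u B) := by
  obtain ⟨b1, b2, b3, b4, b5⟩ := hB
  obtain ⟨t, ht⟩ : ∃ t : ℤ, t = (T : ℤ) := ⟨_, rfl⟩
  have ht0 : 0 ≤ t := by rw [ht]; exact Int.natCast_nonneg T
  obtain ⟨K, hK⟩ : ∃ K : ℤ, K = (κ : ℤ) * X := ⟨_, rfl⟩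
  have hK0 : 0 ≤ K := by rw [hK]; positivity
  rw [← ht] at b1 b2 b4 b5 hu
  rw [← hK] at b1 b2 b3 b4 b5
  have hx := abs_nonneg B.x
  have hy := abs_nonneg B.y
  have hc := abs_nonneg B.c
  have hz := abs_nonneg B.z
  have hw := abs_nonneg B.w
  have hu2 : u ^ 2 ≤ t ^ 2 := pow_le_pow_left₀ hu0 hu 2
  have hu3 : u ^ 3 ≤ t ^ 3 := pow_le_pow_left₀ hu0 hu 3
  have hu4 : u ^ 4 ≤ t ^ 4 := pow_le_pow_left₀ hu0 hu 4
  have hu2' : 0 ≤ u ^ 2 := by positivity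
  have hu3' : 0 ≤ u ^ 3 := by positivity
  have hu4' : 0 ≤ u ^ 4 := by positivity
  have hua : |u| = u := abs_of_nonneg hu0
  unfold InBox
  push_cast
  rw [← ht]
  have hKK : 29 * (κ : ℤ) * X = 29 * K := by rw [hK]; ring
  rw [hKK]
  refine ⟨?_, ?_, ?_, ?_, ?_⟩
  · show |B.x| * t ^ 2 ≤ 29 * K
    linarith
  · show |B.y - 2 * u * B.x| * t ≤ 29 * K
    have h1 : |B.y - 2 * u * B.x| ≤ |B.y| + 2 * u * |B.x| := by
      have e : |2 * u * B.x| = 2 * u * |B.x| := by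
        rw [abs_mul, abs_of_nonneg (by positivity : 0 ≤ 2 * u)]
      rw [← e, abs_le]
      constructor <;> linarith [neg_abs_le B.y, le_abs_self B.y, neg_abs_le (2 * u * B.x),
        le_abs_self (2 * u * B.x)]
    calc |B.y - 2 * u * B.x| * t ≤ (|B.y| + 2 * t * |B.x|) * t := by
          refine mul_le_mul_of_nonneg_right (h1.trans ?_) ht0
          have := mul_le_mul_of_nonneg_right hu hx
          linarith
      _ = |B.y| * t + 2 * (|B.x| * t ^ 2) := by ring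
      _ ≤ 29 * K := by linarith
  · show |B.c + 2 * u * B.y - 2 * u ^ 2 * B.x| ≤ 29 * K
    have h1 : |B.c + 2 * u * B.y - 2 * u ^ 2 * B.x| ≤ |B.c| + 2 * u * |B.y| + 2 * u ^ 2 * |B.x| := by
      have e : |2 * u * B.y| = 2 * u * |B.y| := by
        rw [abs_mul, abs_of_nonneg (by positivity : 0 ≤ 2 * u)]
      have e2 : |2 * u ^ 2 * B.x| = 2 * u ^ 2 * |B.x| := by
        rw [abs_mul, abs_of_nonneg (by positivity : 0 ≤ 2 * u ^ 2)]
      rw [← e, ← e2, abs_le]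
      constructor <;> linarith [neg_abs_le B.c, le_abs_self B.c, neg_abs_le (2 * u * B.y),
        le_abs_self (2 * u * B.y), neg_abs_le (2 * u ^ 2 * B.x), le_abs_self (2 * u ^ 2 * B.x)]
    have h2 := mul_le_mul_of_nonneg_right hu hy
    have h3 := mul_le_mul_of_nonneg_right hu2 hx
    calc |B.c + 2 * u * B.y - 2 * u ^ 2 * B.x| ≤ |B.c| + 2 * (|B.y| * t) + 2 * (|B.x| * t ^ 2) := by
          linarith
      _ ≤ 29 * K := by linarith
  · show |B.z - 6 * u * B.c - 6 * u ^ 2 * B.y + 4 * u ^ 3 * B.x| ≤ 29 * K * t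
    have h1 : |B.z - 6 * u * B.c - 6 * u ^ 2 * B.y + 4 * u ^ 3 * B.x| ≤
        |B.z| + 6 * u * |B.c| + 6 * u ^ 2 * |B.y| + 4 * u ^ 3 * |B.x| := by
      have e : |6 * u * B.c| = 6 * u * |B.c| := by
        rw [abs_mul, abs_of_nonneg (by positivity : 0 ≤ 6 * u)]
      have e2 : |6 * u ^ 2 * B.y| = 6 * u ^ 2 * |B.y| := by
        rw [abs_mul, abs_of_nonneg (by positivity : 0 ≤ 6 * u ^ 2)]
      have e3 : |4 * u ^ 3 * B.x| = 4 * u ^ 3 * |B.x| := by
        rw [abs_mul, abs_of_nonneg (by positivity : 0 ≤ 4 * u ^ 3)]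
      rw [← e, ← e2, ← e3, abs_le]
      constructor <;> linarith [neg_abs_le B.z, le_abs_self B.z, neg_abs_le (6 * u * B.c),
        le_abs_self (6 * u * B.c), neg_abs_le (6 * u ^ 2 * B.y), le_abs_self (6 * u ^ 2 * B.y),
        neg_abs_le (4 * u ^ 3 * B.x), le_abs_self (4 * u ^ 3 * B.x)]
    have h2 := mul_le_mul_of_nonneg_right hu hc
    have h3 := mul_le_mul_of_nonneg_right hu2 hy
    have h4 := mul_le_mul_of_nonneg_right hu3 hx
    have k2 := mul_le_mul_of_nonneg_right b3 ht0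
    have k3 := mul_le_mul_of_nonneg_right b2 ht0
    have k4 := mul_le_mul_of_nonneg_right b1 ht0
    calc |B.z - 6 * u * B.c - 6 * u ^ 2 * B.y + 4 * u ^ 3 * B.x| ≤
          |B.z| + 6 * (|B.c| * t) + 6 * (|B.y| * t * t) + 4 * (|B.x| * t ^ 2 * t) := by
          linarith
      _ ≤ K * t + 6 * (K * t) + 6 * (K * t) + 4 * (K * t) := by linarith
      _ ≤ 29 * K * t := by
          have : 0 ≤ K * t := by positivity
          linarith
  · show |gq B u| ≤ 29 * K * t ^ 2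
    have h1 : |gq B u| ≤
        4 * u ^ 4 * |B.x| + 8 * u ^ 3 * |B.y| + 12 * u ^ 2 * |B.c| + 4 * u * |B.z| + |B.w| := by
      have e : |4 * u ^ 4 * B.x| = 4 * u ^ 4 * |B.x| := by
        rw [abs_mul, abs_of_nonneg (by positivity : 0 ≤ 4 * u ^ 4)]
      have e2 : |8 * u ^ 3 * B.y| = 8 * u ^ 3 * |B.y| := by
        rw [abs_mul, abs_of_nonneg (by positivity : 0 ≤ 8 * u ^ 3)]
      have e3 : |12 * u ^ 2 * B.c| = 12 * u ^ 2 * |B.c| := by
        rw [abs_mul, abs_of_nonneg (by positivity : 0 ≤ 12 * u ^ 2)]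
      have e4 : |4 * u * B.z| = 4 * u * |B.z| := by
        rw [abs_mul, abs_of_nonneg (by positivity : 0 ≤ 4 * u)]
      have e5 : gq B u = 4 * u ^ 4 * B.x - 8 * u ^ 3 * B.y - 12 * u ^ 2 * B.c + 4 * u * B.z + B.w := by
        unfold gq
        ring
      rw [← e, ← e2, ← e3, ← e4, e5, abs_le]
      constructor <;> linarith [neg_abs_le B.w, le_abs_self B.w, neg_abs_le (4 * u ^ 4 * B.x),
        le_abs_self (4 * u ^ 4 * B.x), neg_abs_le (8 * u ^ 3 * B.y), le_abs_self (8 * u ^ 3 * B.y),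
        neg_abs_le (12 * u ^ 2 * B.c), le_abs_self (12 * u ^ 2 * B.c), neg_abs_le (4 * u * B.z),
        le_abs_self (4 * u * B.z)]
    have h2 := mul_le_mul_of_nonneg_right hu4 hx
    have h3 := mul_le_mul_of_nonneg_right hu3 hy
    have h4 := mul_le_mul_of_nonneg_right hu2 hc
    have h5 := mul_le_mul_of_nonneg_right hu hz
    have ht2 : 0 ≤ t ^ 2 := by positivity
    have k1 := mul_le_mul_of_nonneg_right b1 ht2
    have k2 := mul_le_mul_of_nonneg_right b2 ht2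
    have k3 := mul_le_mul_of_nonneg_right b3 ht2
    have k4 := mul_le_mul_of_nonneg_right b4 ht0
    calc |gq B u| ≤ 4 * (|B.x| * t ^ 2 * t ^ 2) + 8 * (|B.y| * t * t ^ 2) + 12 * (|B.c| * t ^ 2) +
          4 * (|B.z| * t) + |B.w| := by linarith
      _ ≤ 4 * (K * t ^ 2) + 8 * (K * t ^ 2) + 12 * (K * t ^ 2) + 4 * (K * t * t) + K * t ^ 2 := by
          linarith
      _ = 29 * K * t ^ 2 := by ring

lemma tt_tau {Q : ℤ} {B : Tup ℤ} (h : TT Q B) (u : ℤ) : TT Q (tau u B) := by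
  have key : ∀ v, Q ∣ gq B v → Q ∣ gq (tau u B) (v - u) := by
    intro v hv
    have h1 : gq (tau u B) (v - u) = gq B v := by
      rw [gq_tau, add_sub_cancel]
    rw [h1]
    exact hv
  rcases h with ⟨v, v', h1, h2, h3⟩ | ⟨h1, v, h2⟩
  · refine Or.inl ⟨v - u, v' - u, ?_, key v h2, key v' h3⟩
    rw [sub_sub_sub_cancel_right]
    exact h1
  · exact Or.inr ⟨h1, v - u, key v h2⟩

lemma X_tau {κ X T : ℕ} {S : Finset ℤ} {s : ℤ → ℤ} {B : Tup ℤ}
    (hB : Xset κ X T S s B) {u : ℤ} (hu0 : 0 ≤ u) (hu : u ≤ T) :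
    Xset (29 * κ) X T S s (tau u B) := by
  refine ⟨box_tau hB.box hu0 hu, hB.nz, fun Q hQ => tt_tau (hB.tt Q hQ) u, fun Q hQ => ?_,
    fun Q hQ => ?_⟩
  · rw [chA_tau]
    exact hB.ra Q hQ
  · rw [chB_tau]
    exact hB.rb Q hQ

/-- PQ-ORB -/
theorem orb : S_ORB := by
  intro κ S s X T hT hfin0
  have hfin : Finite {B : Tup ℤ | Xset (29 * κ) X T S s B} := hfin0.to_subtype
  rw [← Nat.card_coe_set_eq {B : Tup ℤ | Xset (29 * κ) X T S s B}]
  have hch : ∀ p : {p : ℤ × ℤ | ∃ B : Tup ℤ, Xset κ X T S s B ∧ chA B = p.1 ∧ chB B = p.2},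
      ∃ B : Tup ℤ, Xset κ X T S s B ∧ chA B = p.1.1 ∧ chB B = p.1.2 := fun p => p.2
  choose B h1 h3 h4 using hch
  have e1 : {p : ℤ × ℤ | ∃ B : Tup ℤ, Xset κ X T S s B ∧ chA B = p.1 ∧ chB B = p.2}.ncard * T =
      Nat.card ({p : ℤ × ℤ | ∃ B : Tup ℤ, Xset κ X T S s B ∧ chA B = p.1 ∧ chB B = p.2} × Fin T) := by
    rw [Nat.card_prod, Nat.card_coe_set_eq, Nat.card_fin]
  rw [e1]
  refine Nat.card_le_card_of_injective (fun z => (⟨tau ((z.2.1 : ℕ) : ℤ) (B z.1), X_tau (h1 z.1)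
    (Int.natCast_nonneg _) (by exact_mod_cast z.2.2.le)⟩ :
      {B : Tup ℤ | Xset (29 * κ) X T S s B})) ?_
  rintro ⟨p, u⟩ ⟨p', u'⟩ h
  have h5 : tau ((u.1 : ℕ) : ℤ) (B p) = tau ((u'.1 : ℕ) : ℤ) (B p') := congrArg Subtype.val h
  have h6' : p = p' := by
    apply Subtype.ext
    refine Prod.ext ?_ ?_
    · rw [← h3 p, ← h3 p', ← chA_tau ((u.1 : ℕ) : ℤ) (B p), ← chA_tau ((u'.1 : ℕ) : ℤ) (B p'), h5]
    · rw [← h4 p, ← h4 p', ← chB_tau ((u.1 : ℕ) : ℤ) (B p), ← chB_tau ((u'.1 : ℕ) : ℤ) (B p'), h5]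
  subst h6'
  have h7 : (B p).y - 2 * ((u.1 : ℕ) : ℤ) * (B p).x = (B p).y - 2 * ((u'.1 : ℕ) : ℤ) * (B p).x :=
    congrArg Tup.y h5
  have h8 : (2 * (B p).x) * (((u.1 : ℕ) : ℤ) - ((u'.1 : ℕ) : ℤ)) = 0 := by linear_combination -h7
  have h9 : u = u' := by
    apply Fin.ext
    rcases mul_eq_zero.1 h8 with h10 | h10
    · rcases mul_eq_zero.1 h10 with h11 | h11
      · exact absurd h11 (by norm_num)
      · exact absurd h11 (h1 p).nz
    · have := sub_eq_zero.1 h10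
      exact_mod_cast this
  rw [h9]

end Pool.Agent.N50.PQ
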